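import Mathlib

namespace Pool.Agent.Results.MP_913bbb_co.IrregularConstant

open Finset SimpleGraph

/-- Highly irregular graphs: distinct neighbours of a vertex have different degrees. -/
def HI {V : Type} (G : SimpleGraph V) : Prop :=
  ∀ v u w, G.Adj v u → G.Adj v w → u ≠ w → (G.neighborSet u).ncard ≠ (G.neighborSet w).ncard

/-- The ratios `α(T) / n` over highly irregular trees of order `n ≥ 2`. -/
def ratios : Set ℝ :=
  {x | ∃ (V : Type) (_ : Finite V) (G : SimpleGraph V), 2 ≤ Nat.card V ∧ G.IsTree ∧ HI G ∧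
    x = (G.indepNum : ℝ) / (Nat.card V : ℝ)}

section upper

variable {V : Type} [Fintype V] [DecidableEq V]

lemma ncd (G : SimpleGraph V) [DecidableRel G.Adj] (v : V) :
    (G.neighborSet v).ncard = G.degree v := by
  rw [← card_neighborFinset_eq_degree, ← Set.ncard_coe_finset, coe_neighborFinset]

def bt (b : Bool) : ℕ := if b then 1 else 0

def tphi : List ℤ := [-1000, -1000, -1000, -1000, -1000, -1000, -1000, -1000, -1000, -1000, -1000, -1000, -1000,
  -1000, -1000, -1000, -1000, -79, -79, -79, -79, -79, -79, -79, -1000, 48, 48, 48, 48, 48, 48,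
  48, -1000, -70, -31, -31, -31, -31, -31, -31, -1000, 17, 9, 17, 17, 17, 17, 17, -1000, -70,
  -39, -14, -14, -14, -14, -14, -1000, 9, 9, -8, 3, 9, 9, 9, -1000, -70, -39, -25, -11, -11,
  -11, -11, -1000, 5, 5, -12, -15, -8, 5, 5, -1000, -74, -43, -35, -18, -13, -13, -13, -1000,
  -3, -3, -18, -21, -19, -19, -3, -1000, -74, -43, -35, -31, -13, -13, -13, -1000, -22, -22,
  -27, -30, -28, -28, -22, -1000, -80, -49, -41, -37, -29, -19, -16, -1000, -35, -35, -37, -40,
  -38, -38, -35]

def tmu : List ℤ := [0, 0, 0, 0, 0, 0, 0, 0, 0, 0, 0, 0, 0, 0, 0, 0, 9, 17, 48, 48, 48, 48, 48, 48, -70, -70, -70,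
  -70, -70, -70, -70, -70, 9, 9, 9, 9, 9, 9, 9, 9, -39, -39, -39, -39, -39, -39, -39, -39, -12,
  -12, -12, -12, -8, -8, -8, -8, -35, -31, -35, -35, -35, -31, -31, -31, -18, -18, -18, -18,
  -18, -11, -11, -11, -35, -31, -31, -31, -31, -31, -31, -31, -17, -13, -13, -13, -13, -13, -13,
  -13, -29, -29, -29, -29, -29, -29, -29, -29, -19, -19, -19, -19, -19, -19, -19, -13, -19, -19,
  -19, -19, -19, -19, -19, -19, -16, -16, -16, -16, -16, -16, -16, -16, -16, -16, -16, -16, -16,
  -16, -16, -16]

def phi (d : ℕ) (i : Bool) (p : ℕ) : ℤ := tphi.getD (16 * d + 8 * bt i + p) 0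

def mu (d : ℕ) (i : Bool) (p : ℕ) : ℤ := tmu.getD (16 * d + 8 * bt i + p) 0

def hh (d : ℕ) (i : Bool) (p e : ℕ) : ℕ :=
  if e = p ∨ 7 ≤ e then 0
  else (max (phi e false d) (if i then -1000 else phi e true d) - mu d i p).toNat

set_option synthInstance.maxSize 2000 in
lemma cert1 : ∀ d < 8, ∀ i : Bool, ∀ p < 8, ∀ e < 8, ∀ j : Bool, d ≠ 0 →
    (i && j) = false → (e ≠ p ∨ e = 7) → phi e j d ≤ mu d i p + hh d i p e := by
  decide +kernel

lemma cert2 : ∀ i : Bool, ∀ p < 8, mu 7 i p ≤ 0 := by decide +kernel

lemma cert3 : ∀ d < 8, ∀ i : Bool, ∀ p < 8, d ≠ 0 →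
    127 * (bt i : ℤ) - 79 + mu d i p * ((d : ℤ) - (if p = 0 then 0 else 1)) +
      ((∑ e ∈ range 7, hh d i p e : ℕ) : ℤ) ≤ (if p = 0 then -22 else phi d i p) := by
  decide +kernel

lemma cert : ∀ d < 8, ∀ i : Bool, ∀ p < 8, d ≠ 0 →
    (∀ e < 8, ∀ j : Bool, ¬ (i = true ∧ j = true) → (e ≠ p ∨ e = 7) →
      phi e j d ≤ mu d i p + hh d i p e) ∧ (d = 7 → mu d i p ≤ 0) ∧
    127 * (bt i : ℤ) - 79 + mu d i p * ((d : ℤ) - (if p = 0 then 0 else 1)) +
      ((∑ e ∈ range 7, hh d i p e : ℕ) : ℤ) ≤ (if p = 0 then -22 else phi d i p) :=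
  fun d hd i p hp h0 => ⟨fun e he j hj h => cert1 d hd i p hp e he j h0
    (by cases i <;> cases j <;> simp at hj ⊢) h, fun h => h ▸ cert2 i p hp, cert3 d hd i p hp h0⟩

lemma vert (C : Finset V) (dg : V → ℕ) (a : V → Bool) (d : ℕ) (i : Bool) (p : ℕ) (hd : d ≠ 0)
    (hc : (d : ℤ) = (if p = 0 then 0 else 1) + C.card)
    (hinj : ∀ c ∈ C, ∀ c' ∈ C, dg c = dg c' → c = c') (hp : ∀ c ∈ C, dg c ≠ p)
    (ha : ∀ c ∈ C, ¬ (i = true ∧ a c = true)) :
    127 * (bt i : ℤ) - 79 + ∑ c ∈ C, phi (min (dg c) 7) (a c) (min d 7) ≤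
      (if p = 0 then -22 else phi (min d 7) i (min p 7)) := by
  obtain ⟨c1, c2, c3⟩ := cert (min d 7) (by omega) i (min p 7) (by omega) (by omega)
  have hp0 : min p 7 = 0 ↔ p = 0 := by omega
  simp only [hp0] at c3
  have h1 : ∀ c ∈ C, phi (min (dg c) 7) (a c) (min d 7) ≤
      mu (min d 7) i (min p 7) + (hh (min d 7) i (min p 7) (dg c) : ℤ) := by
    intro c hcC
    have := c1 (min (dg c) 7) (by omega) (a c) (ha c hcC) (by have := hp c hcC; omega)
    by_cases h7 : dg c ≤ 7
    · rwa [min_eq_left h7] at this ⊢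
    · have e1 : hh (min d 7) i (min p 7) (dg c) = 0 := if_pos (Or.inr (by omega))
      have e2 : hh (min d 7) i (min p 7) (min (dg c) 7) = 0 := if_pos (Or.inr (by omega))
      rw [e1, ← e2]
      exact this
  have h2 := Finset.sum_le_sum h1
  rw [Finset.sum_add_distrib, sum_const, nsmul_eq_mul, ← Nat.cast_sum,
    ← Finset.sum_image (g := dg) (f := hh (min d 7) i (min p 7)) hinj] at h2
  have h3 : ∑ e ∈ C.image dg, hh (min d 7) i (min p 7) e ≤
      ∑ e ∈ range 7, hh (min d 7) i (min p 7) e := by
    apply Finset.sum_le_sum_of_ne_zero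
    intro e _ he
    by_contra h
    exact he (if_pos (Or.inr (by simpa using h)))
  have h3' : ((∑ e ∈ C.image dg, hh (min d 7) i (min p 7) e : ℕ) : ℤ) ≤
      ((∑ e ∈ range 7, hh (min d 7) i (min p 7) e : ℕ) : ℤ) := by exact_mod_cast h3
  have h4 : (C.card : ℤ) * mu (min d 7) i (min p 7) ≤ mu (min d 7) i (min p 7) *
      (((min d 7 : ℕ) : ℤ) - (if p = 0 then 0 else 1)) := by
    rw [mul_comm]
    by_cases h7 : d < 7
    · apply le_of_eq
      have : (C.card : ℤ) = ((min d 7 : ℕ) : ℤ) - (if p = 0 then 0 else 1) := by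
        rw [min_eq_left h7.le, hc]; ring
      rw [this]
    · apply mul_le_mul_of_nonpos_left _ (c2 (by omega))
      have : ((min d 7 : ℕ) : ℤ) ≤ d := by exact_mod_cast min_le_left d 7
      linarith
  linarith

lemma parent {G : SimpleGraph V} (hT : G.IsTree) (r : V) : ∃ par : V → V,
    (∀ v, v ≠ r → G.Adj v (par v) ∧ G.dist r (par v) + 1 = G.dist r v) ∧
    ∀ u v, G.Adj u v → G.dist r v + 1 = G.dist r u → par u = v := by
  have hc := hT.connected
  have ex : ∀ v, ∃ a, v ≠ r → G.Adj v a ∧ G.dist r a + 1 = G.dist r v := by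
    intro v
    by_cases hv : v = r
    · exact ⟨v, fun h => absurd hv h⟩
    obtain ⟨p, hp⟩ := hc.exists_walk_length_eq_dist v r
    cases p with
    | nil => exact absurd rfl hv
    | cons h q =>
      refine ⟨_, fun _ => ⟨h, ?_⟩⟩
      have h1 := dist_le q
      rw [Walk.length_cons, SimpleGraph.dist_comm] at hp
      rw [SimpleGraph.dist_comm] at h1
      rcases hT.dist_eq_dist_add_one_of_adj r h with h2 | h2 <;> omega
  choose par hpar using ex
  refine ⟨par, hpar, fun u v h hd => ?_⟩
  have hu : u ≠ r := by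
    rintro rfl
    rw [SimpleGraph.dist_self] at hd
    omega
  obtain ⟨h1, h2⟩ := hpar u hu
  obtain ⟨p, hp⟩ := hc.exists_walk_length_eq_dist (par u) r
  obtain ⟨q, hq⟩ := hc.exists_walk_length_eq_dist v r
  rw [SimpleGraph.dist_comm] at hp hq
  have e : Walk.cons h1 p = Walk.cons h q := (hT.existsUnique_path u r).unique
    (Walk.isPath_of_length_eq_dist _ (by rw [Walk.length_cons, hp, h2, SimpleGraph.dist_comm]))
    (Walk.isPath_of_length_eq_dist _ (by rw [Walk.length_cons, hq, hd, SimpleGraph.dist_comm]))
  have := congrArg (fun w : G.Walk u r => w.getVert 1) e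
  simpa using this


lemma upper (G : SimpleGraph V) [DecidableRel G.Adj] (hn : 2 ≤ Fintype.card V) (hT : G.IsTree)
    (hI : HI G) : 127 * G.indepNum + 22 ≤ 79 * Fintype.card V := by
  obtain ⟨r⟩ := hT.connected.nonempty
  obtain ⟨par, hp1, hp2⟩ := parent hT r
  have hsum : ∀ (h : V → ℤ) (v : V), ∑ u ∈ G.neighborFinset v, h u =
      (if decide (v = r) then 0 else h (par v)) +
        ∑ c ∈ (univ.erase r).filter (fun c => par c = v), h c := by
    intro h v
    by_cases hv : v = r
    · rw [hv]
      simp only [decide_true, if_true, zero_add]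
      refine Finset.sum_congr ?_ (fun _ _ => rfl)
      ext c
      simp only [mem_neighborFinset, mem_filter, mem_erase, mem_univ, and_true]
      constructor
      · intro hc
        refine ⟨hc.ne', hp2 c r hc.symm ?_⟩
        rcases hT.dist_eq_dist_add_one_of_adj r hc with h2 | h2
        · rw [SimpleGraph.dist_self] at h2; omega
        · omega
      · rintro ⟨h1, h2⟩
        exact (h2 ▸ (hp1 c h1).1).symm
    · simp only [hv, decide_false, Bool.false_eq_true, if_false]
      have hni : par v ∉ (univ.erase r).filter (fun c => par c = v) := by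
        intro hm
        simp only [mem_filter, mem_erase, mem_univ, and_true] at hm
        have h1 := (hp1 v hv).2
        have h2 := (hp1 _ hm.1).2
        rw [hm.2] at h2
        omega
      rw [← Finset.sum_insert hni]
      refine Finset.sum_congr ?_ (fun _ _ => rfl)
      ext c
      simp only [mem_neighborFinset, mem_insert, mem_filter, mem_erase, mem_univ, and_true]
      constructor
      · intro hc
        rcases hT.dist_eq_dist_add_one_of_adj r hc with h2 | h2
        · exact Or.inl (hp2 v c hc h2.symm).symm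
        · refine Or.inr ⟨?_, hp2 c v hc.symm h2.symm⟩
          rintro rfl
          rw [SimpleGraph.dist_self] at h2
          omega
      · rintro (rfl | ⟨h1, h2⟩)
        · exact (hp1 v hv).1
        · exact (h2 ▸ (hp1 c h1).1).symm
  obtain ⟨s, hs, hs'⟩ := G.exists_isNIndepSet_indepNum
  have hI' : ∀ v u w, G.Adj v u → G.Adj v w → G.degree u = G.degree w → u = w := by
    intro v u w h1 h2 h3
    by_contra h
    exact hI v u w h1 h2 h (by rw [ncd, ncd, h3])
  have hpos : ∀ v, G.degree v ≠ 0 := by
    intro v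
    have : Nontrivial V := Fintype.one_lt_card_iff_nontrivial.1 hn
    exact (hT.connected.preconnected.degree_pos_of_nontrivial v).ne'
  have key : ∀ v, 127 * (bt (decide (v ∈ s)) : ℤ) - 79 +
      ∑ c ∈ (univ.erase r).filter (fun c => par c = v),
        phi (min (G.degree c) 7) (decide (c ∈ s)) (min (G.degree (par c)) 7) ≤
      (if v = r then -22 else
        phi (min (G.degree v) 7) (decide (v ∈ s)) (min (G.degree (par v)) 7)) := by
    intro v
    have hadj : ∀ c ∈ (univ.erase r).filter (fun c => par c = v), G.Adj v c := by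
      intro c hc
      simp only [mem_filter, mem_erase, mem_univ, and_true] at hc
      exact (hc.2 ▸ (hp1 c hc.1).1).symm
    have h := vert ((univ.erase r).filter (fun c => par c = v)) (fun c => G.degree c)
      (fun c => decide (c ∈ s)) (G.degree v) (decide (v ∈ s))
      (if v = r then 0 else G.degree (par v)) (hpos v) (by
        have := hsum (fun _ => 1) v
        simp only [sum_const, card_neighborFinset_eq_degree, nsmul_eq_mul, mul_one] at this
        rw [this]
        by_cases hv : v = r <;> simp [hv, hpos])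
      (fun c hc c' hc' e => hI' v c c' (hadj c hc) (hadj c' hc') e) (by
        intro c hc
        by_cases hv : v = r
        · rw [if_pos hv]
          exact hpos c
        · rw [if_neg hv]
          intro e
          have e' := hI' v c (par v) (hadj c hc) (hp1 v hv).1 e
          simp only [mem_filter, mem_erase, mem_univ, and_true] at hc
          have h1 := (hp1 v hv).2
          have h2 := (hp1 c hc.1).2
          rw [hc.2, e'] at h2
          omega) (by
        rintro c hc ⟨h1, h2⟩
        exact hs (mem_coe.2 (of_decide_eq_true h1)) (mem_coe.2 (of_decide_eq_true h2))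
          (hadj c hc).ne (hadj c hc))
    rw [Finset.sum_congr rfl (fun c hc => by rw [(mem_filter.1 hc).2])]
    by_cases hv : v = r
    · simpa [hv] using h
    · simpa [hv, hpos] using h
  have tot := Finset.sum_le_sum (fun v (_ : v ∈ (univ : Finset V)) => key v)
  rw [Finset.sum_add_distrib, Finset.sum_fiberwise,
    ← Finset.add_sum_erase _ (fun v => if v = r then (-22 : ℤ) else
      phi (min (G.degree v) 7) (decide (v ∈ s)) (min (G.degree (par v)) 7)) (mem_univ r)] at tot
  have e : ∑ v ∈ univ.erase r, (if v = r then (-22 : ℤ) else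
      phi (min (G.degree v) 7) (decide (v ∈ s)) (min (G.degree (par v)) 7)) =
      ∑ v ∈ univ.erase r, phi (min (G.degree v) 7) (decide (v ∈ s)) (min (G.degree (par v)) 7) :=
    Finset.sum_congr rfl (fun v hv => if_neg (mem_erase.1 hv).1)
  have e' : ∑ v, (bt (decide (v ∈ s)) : ℤ) = G.indepNum := by
    rw [← hs']
    simp [bt]
  rw [e, if_pos rfl] at tot
  simp only [Finset.sum_sub_distrib, ← Finset.mul_sum, sum_const, card_univ, nsmul_eq_mul,
    e'] at tot
  omega

end upper

/-! The extremal family. -/

def pn : ℕ :=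
  5089326633357485108959963211808826923998337298018946196350076688976370345438405064866278931408860162241543126285368121467628880993462887811706207991217644932641304463948965992889890000318009225306712987013352830726478336536523378424870235120571819167299435062433786404488226919775731885316593610887714169334580772942439641602781663305843193937984519904175556274211220634557821159144557855609945950257261087935570146793171499132060301445483994226071173355285244673482346628045114378675576506152418363157059787269794271555489992624756972605110243701738170169882929405106852898018746487655377858049016564467951472453807398102411863798606486287708419772632875437010358026131974308253885116892197338978249336111381120892909102946809553860006342286985713838842288421733739048833301426478776003699502873972369749352122648446967360368198222320244454126269495921338480558055359325506922020007899240996845791942477279922817272880020618841773829508891120363660039224224573083259013735166492956980318919824785168554299201343780641401489499494010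04028635253174685069699813414909176983095786187008786066858065367658549392720882857377183508336557406430618540649324393963268157484078707311272775107349562953236860226314431155900771940091135620452447496330400414463926322605740963625493776167134889071771280630525584497983130183136650329171378889175026521261396173999209412015290945087602570380109777047264478366229483223483605749272036583267709051959608656404784372628201571214172868649799284325212486451298947622090547260175473775844456559195800830361460983252180391977506529071262976593668033713858846178997800481362989769840231948336602399533549817485742526035106204900085544728150343471526014672503961343077651714494077784249959602217517579987695543129621368933336643005321238500250262607636276027855131211858290899335612921209186836589865518007946550706176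

def dn : ℕ :=
  2027495302928309907106720823870336832704822553939789353998461292931436742590941850257849887248291054252321200046947834384556745111712931309766101273775000054828717563778573104313772390929944987055808279128715458478088021003440920347819594501080095239984019511097434237395145818034693106258640885774902819881099167714209272883576384576193256512211118041352485827899437323527690894455286080775032279917884044306604674913403759327720081996037607098419356425808597445277705928375671136683160571140745417373159571546062898228546150090197393124177914849746202212125337079132199880187740828930859310172777673818981774590823212820359111907992911272527347737121436729847165302975221648489011151271040295885234501389868283109536241304880606499269520407337331319197027516363750524931881867691688823076803192756328949685882235042095367905124119519673232355122321016282975018241676730182177459629315170334648955291493486648067073370246289189909940052320125974263483818396714062736756254009661783014613684646480312579554353601546285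126157153852850810498112683546455244808676606811132554390004196737317664646861478258598677328727093963420371606891285766772502735243330288965792891867065658734726756898555379726302304790470152181630609228014161576823486777597923198108979989011220711806273509125117771352702067188819881115268747185949466653319262739171942863462107067473438317666876505183185019776006269364619294611553108253639272022506261928872356406438259051188909373403369021887706044188307723820869792014188543491967100073404709657383349841921621567015451277466913554871594835989446389158963763125647817382272113783114830576029252573487450823179775882476378643728063911525886429066584171312691189545041525525230256279920087381166322163519182350655457202042689678202356741400132344606758983100669144688012529541198619701140121993463067314275269720024416517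

def inn : ℕ :=
  1933768171670749044149173498299409201744847429474700664582472828838466541834934280817239474798137244453432416473698369557646304661588631456636188587648274476990294868482743834031170239012423281271040927237518783928787766450130162238863508691759460633055933670195329114411265838424999922012204828999197745286656716323365087180311054702426718126619682229538391084302698892328883036088704049743810917908984186855585754705539611085112266349597670498312044963393176270448773508052585874589199928211881623645215293151795345383005929045951817151665012132880310858668043446329727078595239813470666700397518516243136513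

def P (t j : ℕ) : ℕ := (pn >>> (8 * (256 * t + j))) % 256

def D (t j : ℕ) : ℕ := (dn >>> (8 * (256 * t + j))) % 256

def I (j : ℕ) : ℕ := (inn >>> (8 * j)) % 256

abbrev A (t j j' : ℕ) : Prop := j ≠ j' ∧ (P t j = j' ∨ P t j' = j)

def out (t : ℕ) : ℕ := if t = 0 then 0 else 13

def tau (m k : ℕ) : ℕ := if k = 0 then 0 else if k = m + 1 then 2 else 1

lemma F1 : ∀ t < 3, ∀ j < 254, j ≠ 0 → P t j < j := by decide +kernel

abbrev G2 (t j : ℕ) : Prop := D t j = ∑ j' : Fin 254, (if A t j j' then 1 else 0) +
    (if j = out t ∧ t ≠ 2 then 1 else 0) + (if j = 0 ∧ t ≠ 0 then 1 else 0)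

lemma F2_0_0 : ∀ j < 127, G2 0 (0 + j) := by decide +kernel

lemma F2_0_1 : ∀ j < 127, G2 0 (127 + j) := by decide +kernel

lemma F2_1_0 : ∀ j < 127, G2 1 (0 + j) := by decide +kernel

lemma F2_1_1 : ∀ j < 127, G2 1 (127 + j) := by decide +kernel

lemma F2_2_0 : ∀ j < 127, G2 2 (0 + j) := by decide +kernel

lemma F2_2_1 : ∀ j < 127, G2 2 (127 + j) := by decide +kernel

lemma F2 : ∀ t < 3, ∀ j < 254, D t j = ∑ j' : Fin 254, (if A t j j' then 1 else 0) +
    (if j = out t ∧ t ≠ 2 then 1 else 0) + (if j = 0 ∧ t ≠ 0 then 1 else 0) := by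
  intro t ht j hj
  by_cases h : j < 127
  · have e : j = 0 + j := by omega
    rw [e]
    interval_cases t
    exacts [F2_0_0 j h, F2_1_0 j h, F2_2_0 j h]
  · have e : j = 127 + (j - 127) := by omega
    rw [e]
    interval_cases t
    exacts [F2_0_1 _ (by omega), F2_1_1 _ (by omega), F2_2_1 _ (by omega)]

lemma F3s_0 : ∀ j < 254, ∀ k < j, P 0 j = P 0 k → k ≠ 0 → D 0 j ≠ D 0 k := by
  decide +kernel

lemma F3s_1 : ∀ j < 254, ∀ k < j, P 1 j = P 1 k → k ≠ 0 → D 1 j ≠ D 1 k := by
  decide +kernel

lemma F3s_2 : ∀ j < 254, ∀ k < j, P 2 j = P 2 k → k ≠ 0 → D 2 j ≠ D 2 k := by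
  decide +kernel

lemma F3s : ∀ t < 3, ∀ j < 254, ∀ k < j, P t j = P t k → k ≠ 0 → D t j ≠ D t k := by
  intro t ht
  interval_cases t
  exacts [F3s_0, F3s_1, F3s_2]

lemma F3g : ∀ t < 3, P t 0 = 0 ∧ ∀ j < 254, P t j ≠ 0 → D t j ≠ D t (P t (P t j)) := by
  decide +kernel

lemma F3a : ∀ t < 3, ∀ j < 254, ∀ j' < 254, A t j j' →
    ∀ j'' < 254, D t j' = D t j'' → A t j j'' → j' = j'' := by
  intro t ht j hj a ha h1 b hb e h2
  obtain ⟨z, g⟩ := F3g t ht
  have n0 : ∀ x, j ≠ x → P t x = j → x ≠ 0 := by
    rintro x hx hp rfl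
    exact hx (hp.symm.trans z)
  have n1 : ∀ x, j ≠ x → P t j = x → j ≠ 0 := by
    rintro x hx hp rfl
    exact hx (z.symm.trans hp)
  rcases h1 with ⟨h1, h3 | h3⟩ <;> rcases h2 with ⟨h2, h4 | h4⟩
  · exact h3.symm.trans h4
  · have := g b hb (by rw [h4]; exact n1 a h1 h3)
    rw [h4, h3] at this
    exact absurd e.symm this
  · have := g a ha (by rw [h3]; exact n1 b h2 h4)
    rw [h3, h4] at this
    exact absurd e this
  · rcases lt_trichotomy a b with h | h | h
    · exact absurd e.symm (F3s t ht b hb a h (h4.trans h3.symm) (n0 a h1 h3))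
    · exact h
    · exact absurd e (F3s t ht a ha b h (h3.trans h4.symm) (n0 b h2 h4))

lemma F3b : ∀ t < 2, ∀ j' < 254, A t (out t) j' → D t j' ≠ 4 := by decide +kernel

lemma F3c : ∀ t < 3, ∀ j' < 254, A t 0 j' → t ≠ 0 → D t j' ≠ 5 := by decide +kernel

lemma F3 : ∀ t < 3, ∀ j < 254, ∀ j' < 254, A t j j' →
    (∀ j'' < 254, A t j j'' → D t j' = D t j'' → j' = j'') ∧
    (j = out t → t ≠ 2 → D t j' ≠ 4) ∧ (j = 0 → t ≠ 0 → D t j' ≠ 5) :=
  fun t ht j hj j' hj' h => ⟨fun k hk h1 h2 => F3a t ht j hj j' hj' h k hk h2 h1,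
    fun e h2 => F3b t (by omega) j' hj' (e ▸ h), fun e h2 => F3c t ht j' hj' (e ▸ h) h2⟩

lemma F4 : ∀ t < 3, (t ≠ 0 → D t 0 = 4) ∧ (t ≠ 2 → D t (out t) = 5) ∧
    ∑ j : Fin 254, D t j + (if t = 0 then 1 else 0) + (if t = 2 then 1 else 0) = 508 := by
  decide +kernel

lemma F5a : ∀ j < 254, j ≠ P 1 j → I j = 1 → I (P 1 j) ≠ 1 := by decide +kernel

lemma F5 : (∀ j < 254, ∀ j' < 254, A 1 j j' → I j = 1 → I j' ≠ 1) ∧ I (out 1) ≠ 1 ∧
    (univ.filter (fun j : Fin 254 => I j = 1)).card = 158 := by
  refine ⟨?_, by decide +kernel, by decide +kernel⟩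
  rintro j hj k hk ⟨h1, rfl | rfl⟩ h2 h3
  · exact F5a j hj h1 h2 h3
  · exact F5a k hk h1.symm h3 h2

def T (m : ℕ) : SimpleGraph (Fin (m + 2) × Fin 254) where
  Adj v w := (v.1.val = w.1.val ∧ A (tau m v.1) v.2 w.2) ∨
    (w.1.val = v.1.val + 1 ∧ v.2.val = out (tau m v.1) ∧ w.2.val = 0) ∨
    (v.1.val = w.1.val + 1 ∧ w.2.val = out (tau m w.1) ∧ v.2.val = 0)
  symm := ⟨fun v w h => by
    rcases h with ⟨h1, h2, h3⟩ | h | h
    · exact Or.inl ⟨h1.symm, h2.symm, h1 ▸ h3.symm⟩
    · exact Or.inr (Or.inr h)
    · exact Or.inr (Or.inl h)⟩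
  loopless := ⟨fun v h => by
    rcases h with ⟨_, h2, _⟩ | h | h
    · exact h2 rfl
    · omega
    · omega⟩

instance (m : ℕ) : DecidableRel (T m).Adj := fun _ _ => inferInstanceAs (Decidable (_ ∨ _ ∨ _))

lemma tau_lt (m k : ℕ) : tau m k < 3 := by unfold tau; split_ifs <;> omega

lemma tau0 (m k : ℕ) : tau m k = 0 ↔ k = 0 := by unfold tau; split_ifs <;> simp_all

lemma tau2 (m k : ℕ) : tau m k = 2 ↔ k = m + 1 := by unfold tau; split_ifs <;> simp_all

lemma out_lt (t : ℕ) : out t < 254 := by unfold out; split_ifs <;> omega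

lemma ite3 (X Y Z : Prop) [Decidable X] [Decidable Y] [Decidable Z] [Decidable (X ∨ Y ∨ Z)]
    (h1 : ¬ (X ∧ Y)) (h2 : ¬ (X ∧ Z)) (h3 : ¬ (Y ∧ Z)) : (if X ∨ Y ∨ Z then 1 else 0 : ℕ) =
      (if X then 1 else 0) + (if Y then 1 else 0) + (if Z then 1 else 0) := by
  by_cases X <;> by_cases Y <;> by_cases Z <;> simp_all

lemma deg (m : ℕ) (v : Fin (m + 2) × Fin 254) : (T m).degree v = D (tau m v.1) v.2 := by
  rw [← card_neighborFinset_eq_degree, neighborFinset_eq_filter, card_filter,
    F2 _ (tau_lt _ _) _ v.2.2]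
  have h : ∀ w : Fin (m + 2) × Fin 254, (if (T m).Adj v w then 1 else 0 : ℕ) =
      (if v.1.val = w.1.val ∧ A (tau m v.1) v.2 w.2 then 1 else 0) +
      (if w.1.val = v.1.val + 1 ∧ v.2.val = out (tau m v.1) ∧ w.2.val = 0 then 1 else 0) +
      (if v.1.val = w.1.val + 1 ∧ w.2.val = out (tau m w.1) ∧ v.2.val = 0 then 1 else 0) :=
    fun w => ite3 _ _ _ (fun h => by have := h.1.1; have := h.2.1; omega)
      (fun h => by have := h.1.1; have := h.2.1; omega)
      (fun h => by have := h.1.1; have := h.2.1; omega)
  simp only [h, Finset.sum_add_distrib]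
  have hv := v.1.2
  refine congrArg₂ (· + ·) (congrArg₂ (· + ·) ?_ ?_) ?_
  · rw [Fintype.sum_prod_type, Finset.sum_eq_single v.1]
    · simp only [true_and]
    · intro k _ hk
      exact Finset.sum_eq_zero (fun j _ => if_neg (fun h => hk (Fin.ext h.1.symm)))
    · intro h
      exact absurd (mem_univ _) h
  · by_cases hc : v.2.val = out (tau m v.1) ∧ tau m v.1 ≠ 2
    · have h2 : v.1.val + 1 < m + 2 := by have := hc.2; rw [Ne, tau2] at this; omega
      rw [if_pos hc, Finset.sum_eq_single (⟨⟨v.1.val + 1, h2⟩, 0⟩ : Fin (m + 2) × Fin 254)]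
      · exact if_pos ⟨rfl, hc.1, rfl⟩
      · intro w _ hw
        exact if_neg (fun h => hw (Prod.ext (Fin.ext h.1) (Fin.ext h.2.2)))
      · intro h
        exact absurd (mem_univ _) h
    · rw [if_neg hc]
      refine Finset.sum_eq_zero (fun w _ => if_neg (fun h => hc ⟨h.2.1, ?_⟩))
      have := w.1.2
      rw [Ne, tau2]
      omega
  · by_cases hc : v.2.val = 0 ∧ tau m v.1 ≠ 0
    · have h2 : v.1.val ≠ 0 := by have := hc.2; rwa [Ne, tau0] at this
      rw [if_pos hc, Finset.sum_eq_single (⟨⟨v.1.val - 1, by omega⟩,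
        ⟨out (tau m (v.1.val - 1)), out_lt _⟩⟩ : Fin (m + 2) × Fin 254)]
      · exact if_pos ⟨by simp only; omega, rfl, hc.1⟩
      · intro w _ hw
        refine if_neg (fun h => hw (Prod.ext (Fin.ext ?_) (Fin.ext ?_)))
        · simp only; omega
        · have : w.1.val = v.1.val - 1 := by omega
          rw [h.2.1, this]
      · intro h
        exact absurd (mem_univ _) h
    · rw [if_neg hc]
      refine Finset.sum_eq_zero (fun w _ => if_neg (fun h => hc ⟨h.2.2, ?_⟩))
      rw [Ne, tau0]
      omega

lemma reach1 (m : ℕ) (k : Fin (m + 2)) (n : ℕ) :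
    ∀ j : Fin 254, j.val = n → (T m).Reachable (k, j) (k, 0) := by
  induction n using Nat.strong_induction_on with
  | _ n ih =>
    intro j hj
    by_cases h0 : j.val = 0
    · rw [show j = 0 from Fin.ext h0]
    · have h1 := F1 _ (tau_lt m k) _ j.2 h0
      have h2 : (T m).Adj (k, j) (k, ⟨P (tau m k) j, lt_trans h1 j.2⟩) :=
        Or.inl ⟨rfl, h1.ne', Or.inl rfl⟩
      exact h2.reachable.trans (ih _ (hj ▸ h1) _ rfl)

lemma reach2 (m n : ℕ) : ∀ k : Fin (m + 2), k.val = n → (T m).Reachable (k, 0) (0, 0) := by
  induction n with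
  | zero =>
    intro k hk
    rw [show k = 0 from Fin.ext hk]
  | succ n ih =>
    intro k hk
    have h1 : n < m + 2 := by have := k.2; omega
    have h2 : (T m).Adj (k, 0) (⟨n, h1⟩, ⟨out (tau m n), out_lt _⟩) :=
      Or.inr (Or.inr ⟨hk, rfl, rfl⟩)
    exact h2.reachable.trans ((reach1 m _ _ _ rfl).trans (ih _ rfl))

lemma tree (m : ℕ) : (T m).IsTree := by
  rw [isTree_iff_connected_and_card]
  have hr : ∀ v : Fin (m + 2) × Fin 254, (T m).Reachable v (0, 0) :=
    fun v => (reach1 m v.1 _ v.2 rfl).trans (reach2 m _ v.1 rfl)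
  refine ⟨⟨fun a b => (hr a).trans (hr b).symm⟩, ?_⟩
  have h1 := (T m).sum_degrees_eq_twice_card_edges
  simp only [deg] at h1
  rw [Fintype.sum_prod_type] at h1
  have h2 : ∑ k : Fin (m + 2), (∑ j : Fin 254, D (tau m k) j + (if k = 0 then 1 else 0) +
      (if k = Fin.last (m + 1) then 1 else 0)) = ∑ _k : Fin (m + 2), 508 := by
    refine Finset.sum_congr rfl (fun k _ => ?_)
    have := (F4 _ (tau_lt m k)).2.2
    simp only [tau0, tau2] at this
    simp only [Fin.ext_iff, Fin.val_zero, Fin.val_last]
    exact this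
  rw [Finset.sum_add_distrib, Finset.sum_add_distrib, Finset.sum_ite_eq', Finset.sum_ite_eq',
    if_pos (mem_univ _), if_pos (mem_univ _), h1, sum_const, card_univ, Fintype.card_fin,
    smul_eq_mul] at h2
  rw [Nat.card_eq_fintype_card, ← edgeFinset_card, Nat.card_eq_fintype_card, Fintype.card_prod,
    Fintype.card_fin, Fintype.card_fin]
  omega

lemma hi (m : ℕ) : HI (T m) := by
  intro v u w h1 h2 hne
  rw [ncd, ncd, deg, deg]
  have t3 := tau_lt m
  have hY : ∀ x : Fin (m + 2) × Fin 254, (x.1.val = v.1.val + 1 ∧ v.2.val = out (tau m v.1) ∧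
      x.2.val = 0) → D (tau m x.1) x.2 = 4 ∧ tau m v.1 ≠ 2 := by
    intro x hx
    have := x.1.2
    refine ⟨hx.2.2 ▸ (F4 _ (t3 _)).1 ?_, ?_⟩
    · rw [Ne, tau0]; omega
    · rw [Ne, tau2]; omega
  have hZ : ∀ x : Fin (m + 2) × Fin 254, (v.1.val = x.1.val + 1 ∧ x.2.val = out (tau m x.1) ∧
      v.2.val = 0) → D (tau m x.1) x.2 = 5 ∧ tau m v.1 ≠ 0 := by
    intro x hx
    have := v.1.2
    refine ⟨hx.2.1 ▸ (F4 _ (t3 _)).2.1 ?_, ?_⟩
    · rw [Ne, tau2]; omega
    · rw [Ne, tau0]; omega
  rcases h1 with h1 | h1 | h1 <;> rcases h2 with h2 | h2 | h2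
  · rw [← h1.1, ← h2.1]
    intro e
    exact hne (Prod.ext (Fin.ext (h1.1.symm.trans h2.1))
      (Fin.ext ((F3 _ (t3 _) _ v.2.2 _ u.2.2 h1.2).1 _ w.2.2 h2.2 e)))
  · rw [(hY w h2).1, ← h1.1]
    exact (F3 _ (t3 _) _ v.2.2 _ u.2.2 h1.2).2.1 h2.2.1 (hY w h2).2
  · rw [(hZ w h2).1, ← h1.1]
    exact (F3 _ (t3 _) _ v.2.2 _ u.2.2 h1.2).2.2 h2.2.2 (hZ w h2).2
  · rw [(hY u h1).1, ← h2.1]
    exact ((F3 _ (t3 _) _ v.2.2 _ w.2.2 h2.2).2.1 h1.2.1 (hY u h1).2).symm
  · exact absurd (Prod.ext (Fin.ext (by omega)) (Fin.ext (by omega))) hne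
  · rw [(hY u h1).1, (hZ w h2).1]
    omega
  · rw [(hZ u h1).1, ← h2.1]
    exact ((F3 _ (t3 _) _ v.2.2 _ w.2.2 h2.2).2.2 h1.2.2 (hZ u h1).2).symm
  · rw [(hZ u h1).1, (hY w h2).1]
    omega
  · have e : u.1.val = w.1.val := by omega
    exact absurd (Prod.ext (Fin.ext e) (Fin.ext (by rw [h1.2.1, h2.2.1, e]))) hne

lemma indep (m : ℕ) : 158 * m ≤ (T m).indepNum := by
  have hinj : Function.Injective (fun x : Fin m × Fin 254 =>
      ((⟨x.1.val + 1, by omega⟩, x.2) : Fin (m + 2) × Fin 254)) := by
    intro x y e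
    simp only [Prod.mk.injEq, Fin.mk.injEq] at e
    exact Prod.ext (Fin.ext (by omega)) e.2
  have ht : ∀ k : Fin m, tau m (k.val + 1) = 1 := by
    intro k
    have := k.2
    unfold tau
    rw [if_neg (by omega), if_neg (by omega)]
  have h : (T m).IsIndepSet (((univ ×ˢ univ.filter (fun j : Fin 254 => I j = 1)).image
      (fun x : Fin m × Fin 254 => ((⟨x.1.val + 1, by omega⟩, x.2) : Fin (m + 2) × Fin 254)) :
        Finset _) : Set _) := by
    intro a ha b hb _ hab
    obtain ⟨x, hx, rfl⟩ := mem_image.1 (mem_coe.1 ha)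
    obtain ⟨y, hy, rfl⟩ := mem_image.1 (mem_coe.1 hb)
    have hx' : I x.2 = 1 := (mem_filter.1 (mem_product.1 hx).2).2
    have hy' : I y.2 = 1 := (mem_filter.1 (mem_product.1 hy).2).2
    rcases hab with h | h | h
    · simp only [ht] at h
      exact F5.1 _ x.2.2 _ y.2.2 h.2 hx' hy'
    · simp only [ht] at h
      exact F5.2.1 (h.2.1 ▸ hx')
    · simp only [ht] at h
      exact F5.2.1 (h.2.1 ▸ hy')
  have h2 := h.card_le_indepNum
  rw [card_image_of_injective _ hinj, card_product, card_univ, Fintype.card_fin, F5.2.2] at h2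
  omega

theorem result :
    (∀ (V : Type) [Finite V] (G : SimpleGraph V), 2 ≤ Nat.card V → G.IsTree → HI G →
      127 * G.indepNum + 22 ≤ 79 * Nat.card V) ∧ IsLUB ratios (79 / 127) := by
  have up : ∀ (V : Type) [Finite V] (G : SimpleGraph V), 2 ≤ Nat.card V → G.IsTree → HI G →
      127 * G.indepNum + 22 ≤ 79 * Nat.card V := by
    intro V _ G hn hT hI
    classical
    have := Fintype.ofFinite V
    rw [Nat.card_eq_fintype_card] at hn ⊢
    exact upper G hn hT hI
  refine ⟨up, ?_, ?_⟩
  · rintro x ⟨V, _, G, hn, hT, hI, rfl⟩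
    have h1 : (127 : ℝ) * G.indepNum + 22 ≤ 79 * Nat.card V := by exact_mod_cast up V G hn hT hI
    have h2 : (0 : ℝ) < Nat.card V := by exact_mod_cast (by omega : 0 < Nat.card V)
    rw [div_le_iff₀ h2]
    linarith
  · intro b hb
    by_contra hlt
    push Not at hlt
    obtain ⟨m, hm⟩ := exists_nat_gt (2 / (79 / 127 - b))
    have hc : Nat.card (Fin (m + 2) × Fin 254) = (m + 2) * 254 := by simp
    have h1 := hb ⟨_, inferInstance, T m, by rw [hc]; omega, tree m, hi m, rfl⟩
    have h2 : (158 : ℝ) * m ≤ (T m).indepNum := by exact_mod_cast indep m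
    have h0 : (0 : ℝ) ≤ m := Nat.cast_nonneg m
    rw [hc, div_le_iff₀ (by positivity)] at h1
    rw [div_lt_iff₀ (by linarith)] at hm
    push_cast at h1
    nlinarith

end Pool.Agent.Results.MP_913bbb_co.IrregularConstant
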